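import Pool.Agent.MWKP.Stmts

/-!
# Row FDG of block MWKP: the degenerate cases
-/

namespace Pool.Agent.MWKP.H47

open Pool.Agent.Helper14_MV Pool.Agent.Helper2_MV Pool.Agent.MWK Pool.Agent.MWKP

theorem pw_single (k x : ℕ) : pw k [x] = List.replicate k x := by
  induction k with
  | zero => rfl
  | succ k ih =>
    unfold pw at *
    rw [List.replicate_succ, List.flatten_cons, ih]
    rfl

/-- every letter repeated `k` times -/
def rp (k : ℕ) (l : List ℕ) : List ℕ := l.flatMap (fun a => List.replicate k a)

theorem count_rp (k : ℕ) (l : List ℕ) (x : ℕ) : (rp k l).count x = k * l.count x := by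
  induction l with
  | nil => simp [rp]
  | cons a l ih =>
    unfold rp at *
    rw [List.flatMap_cons, List.count_append, ih]
    by_cases h : a = x
    · subst h
      rw [List.count_replicate_self, List.count_cons_self]
      ring
    · rw [List.count_replicate, List.count_cons_of_ne h, if_neg (by simpa using h)]
      ring

theorem mem_rp {k : ℕ} (hk : 1 ≤ k) {l : List ℕ} {x : ℕ} : x ∈ rp k l ↔ x ∈ l := by
  rw [← List.count_pos_iff, count_rp, ← List.count_pos_iff]
  constructor
  · intro h
    rcases Nat.eq_zero_or_pos (l.count x) with h0 | h0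
    · rw [h0] at h
      simp at h
    · exact h0
  · intro h
    exact Nat.mul_pos hk h

theorem rr_flat {θ : FIC} (f g : ℕ → List ℕ) (h : ∀ a, RR θ (f a) (g a)) (l : List ℕ) :
    RR θ (l.flatMap f) (l.flatMap g) := by
  induction l with
  | nil => exact RR.refl _
  | cons a l ih =>
    rw [List.flatMap_cons, List.flatMap_cons]
    exact (h a).append ih

theorem flat_id (l : List ℕ) : l.flatMap (fun a => [a]) = l := by
  induction l with
  | nil => rfl
  | cons a l ih =>
    rw [List.flatMap_cons, ih]
    rfl

/-- `a ~ a^(1 + k n)` -/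
theorem dg_pow {n : ℕ} {θ : FIC} (hd : Dg n θ) (a k : ℕ) :
    RR θ [a] (List.replicate (k * n + 1) a) := by
  have h1 : RR θ [a] (List.replicate (n + 1) a) := by
    have h := RR.sub (fun _ => [a]) hd
    have e : (List.replicate (n + 1) 0).flatMap (fun _ => [a]) = List.replicate (n + 1) a := by
      generalize n + 1 = m
      induction m with
      | zero => rfl
      | succ m ih =>
        rw [List.replicate_succ, List.flatMap_cons, ih]
        rfl
    rw [e] at h
    exact h
  induction k with
  | zero => simpa using RR.refl (β := θ) [a]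
  | succ k ih =>
    have h2 : RR θ (List.replicate (k * n) a ++ [a])
        (List.replicate (k * n) a ++ List.replicate (n + 1) a) := (RR.refl _).append h1
    have e1 : List.replicate (k * n) a ++ [a] = List.replicate (k * n + 1) a :=
      (List.replicate_succ').symm
    have e2 : List.replicate (k * n) a ++ List.replicate (n + 1) a =
        List.replicate ((k + 1) * n + 1) a := by
      rw [List.replicate_append_replicate]
      ring_nf
    rw [e1, e2] at h2
    exact θ.trans ih h2

theorem rr_rp {n : ℕ} {θ : FIC} (hd : Dg n θ) (u : List ℕ) : RR θ u (rp (2 * n + 1) u) := by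
  have h := rr_flat (θ := θ) (fun a => [a]) (fun a => List.replicate (2 * n + 1) a)
    (fun a => dg_pow hd a 2) u
  rw [flat_id] at h
  exact h

theorem rr_wt {θ : FIC} (j : ℕ → ℕ) (P L : List ℕ) (hL : ∀ x ∈ L, 2 ≤ P.count x)
    (hj : ∀ x, WT (j x) θ) :
    RR θ (P ++ L.flatMap (fun x => List.replicate (j x) x)) P := by
  induction L with
  | nil =>
    rw [List.flatMap_nil, List.append_nil]
    exact RR.refl _
  | cons a L ih =>
    have h := hj a P [a] (L.flatMap (fun x => List.replicate (j x) x)) (by
      intro l hl
      rw [List.mem_singleton] at hl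
      rw [hl]
      exact hL a (by simp))
    rw [pw_single, List.append_assoc] at h
    rw [List.flatMap_cons]
    exact θ.trans h (ih (fun x hx => hL x (List.mem_cons_of_mem _ hx)))

theorem count_flat (j : ℕ → ℕ) (L : List ℕ) (hn : L.Nodup) (y : ℕ) (hy : y ∈ L) :
    (L.flatMap (fun x => List.replicate (j x) x)).count y = j y := by
  induction L with
  | nil => simp at hy
  | cons a L ih =>
    rw [List.flatMap_cons, List.count_append]
    rw [List.nodup_cons] at hn
    by_cases h : a = y
    · subst h
      have h0 : (L.flatMap (fun x => List.replicate (j x) x)).count a = 0 := by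
        rw [List.count_eq_zero]
        intro hm
        rw [List.mem_flatMap] at hm
        obtain ⟨b, hb, hab⟩ := hm
        have := List.eq_of_mem_replicate hab
        exact hn.1 (this ▸ hb)
      rw [List.count_replicate_self, h0, Nat.add_zero]
    · have hy' : y ∈ L := by
        rcases List.mem_cons.1 hy with h1 | h1
        · exact absurd h1.symm h
        · exact h1
      rw [List.count_replicate, if_neg (by simpa using h), ih hn.2 hy', Nat.zero_add]

/-- the case `Dg` -/
theorem main_dg (h2 : KclStmt) {n : ℕ} {θ : FIC} (hk : Kn n θ) (u v : List ℕ)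
    (hw : ∀ x, WT (df n (u.count x) (v.count x)) θ) (hd : Dg n θ) (hm : ∀ x, x ∈ u ↔ x ∈ v) :
    RR θ u v := by
  have hn := hk.pos
  set j : ℕ → ℕ := fun x => df n (u.count x) (v.count x) with hj
  set Z : List ℕ := rp (2 * n + 1) u with hZ
  set V : List ℕ := rp (2 * n + 1) v with hV
  set L : List ℕ := v.dedup with hL
  set Z' : List ℕ := V ++ L.flatMap (fun x => List.replicate (j x) x) with hZ'
  have c2 : ∀ (w : List ℕ) (x : ℕ), x ∈ w → 2 ≤ (rp (2 * n + 1) w).count x := by
    intro w x hx
    rw [count_rp]
    have : 1 ≤ w.count x := List.count_pos_iff.2 hx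
    nlinarith
  have a1 : RR θ u Z := rr_rp hd u
  have a2 : RR θ v V := rr_rp hd v
  have a3 : RR θ Z' V := rr_wt j V L (fun x hx => c2 v x (List.mem_dedup.1 hx)) hw
  have mZ : ∀ x, x ∈ Z ↔ x ∈ u := fun x => mem_rp (by omega)
  have mV : ∀ x, x ∈ V ↔ x ∈ v := fun x => mem_rp (by omega)
  have mZ' : ∀ x, x ∈ Z' ↔ x ∈ v := by
    intro x
    rw [hZ', List.mem_append, mV]
    constructor
    · rintro (h | h)
      · exact h
      · rw [List.mem_flatMap] at h
        obtain ⟨b, hb, hxb⟩ := h
        have := List.eq_of_mem_replicate hxb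
        rw [this]
        exact List.mem_dedup.1 hb
    · exact fun h => Or.inl h
  have a4 : RR θ Z Z' := by
    have h := h2 n θ hk [] Z Z' [] (fun l => by rw [mZ, mZ', hm]) (by
      intro l hl
      rw [List.nil_append]
      exact c2 u l ((mZ l).1 hl)) (by
      intro l hl
      rw [List.nil_append, hZ', List.count_append]
      exact le_trans (c2 v l ((mZ' l).1 hl)) (Nat.le_add_right _ _)) (by
      intro l
      by_cases hlv : l ∈ v
      · rw [hZ', List.count_append, count_flat j L (List.nodup_dedup v) l
          (List.mem_dedup.2 hlv), hZ, hV, count_rp, count_rp, hj]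
        simp only [df]
        obtain ⟨m, rfl⟩ : ∃ m, n = m + 1 := ⟨n - 1, by omega⟩
        rw [Nat.add_sub_cancel]
        unfold Nat.ModEq
        have e1 : (2 * (m + 1) + 1) * u.count l = u.count l + (m + 1) * (2 * u.count l) := by ring
        have e2 : (2 * (m + 1) + 1) * v.count l + (u.count l + m * v.count l) =
            u.count l + (m + 1) * (3 * v.count l) := by ring
        rw [e1, e2, Nat.add_mul_mod_self_left, Nat.add_mul_mod_self_left]
      · have h0 : Z.count l = 0 := List.count_eq_zero.2 (fun h => hlv ((hm l).1 ((mZ l).1 h)))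
        have h1 : Z'.count l = 0 := List.count_eq_zero.2 (fun h => hlv ((mZ' l).1 h))
        rw [h0, h1])
    simpa using h
  exact θ.trans a1 (θ.trans a4 (θ.trans a3 a2.symm))

theorem dz_pow {n : ℕ} {θ : FIC} (hz : Dz n θ) (a : ℕ) : RR θ [] (List.replicate n a) := by
  have h := RR.sub (fun _ => [a]) hz
  have e : (List.replicate n 0).flatMap (fun _ => [a]) = List.replicate n a := by
    generalize n = m
    induction m with
    | zero => rfl
    | succ m ih =>
      rw [List.replicate_succ, List.flatMap_cons, ih]
      rfl
  rw [e, List.flatMap_nil] at h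
  exact h

theorem rr_dz {n : ℕ} {θ : FIC} (hz : Dz n θ) (u v : List ℕ) : RR θ u (u ++ rp n v) := by
  have e : v.flatMap (fun _ => ([] : List ℕ)) = [] := by
    induction v with
    | nil => rfl
    | cons a l ih => rw [List.flatMap_cons, ih]; rfl
  have h := rr_flat (θ := θ) (fun _ => []) (fun a => List.replicate n a) (fun a => dz_pow hz a) v
  rw [e] at h
  have h' := (RR.refl (β := θ) u).append h
  rw [List.append_nil] at h'
  exact h'

theorem fdg (_h1 : KddStmt) (h2 : KclStmt) (h3 : WraStmt) : FdgStmt := by
  intro n θ hk u v hw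
  refine ⟨fun hd hm => main_dg h2 hk u v hw hd hm, fun hz => ?_⟩
  have hn := hk.pos
  have hd : Dg n θ := by
    have h := (dz_pow hz 0).append (RR.refl (β := θ) [0])
    rw [List.nil_append, ← List.replicate_succ'] at h
    exact h
  have b1 := rr_dz hz u v
  have b2 := rr_dz hz v u
  have b3 : RR θ (u ++ rp n v) (v ++ rp n u) := by
    refine main_dg h2 hk _ _ ?_ hd ?_
    · intro x
      refine (h3 n θ hk).2.2.2.2.1 (df n (u.count x) (v.count x)) _ ?_ (hw x)
      rw [List.count_append, List.count_append, count_rp, count_rp]
      simp only [df]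
      obtain ⟨m, rfl⟩ : ∃ m, n = m + 1 := ⟨n - 1, by omega⟩
      rw [Nat.add_sub_cancel]
      unfold Nat.ModEq
      have e2 : u.count x + (m + 1) * v.count x + m * (v.count x + (m + 1) * u.count x) =
          (u.count x + m * v.count x) + (m + 1) * (v.count x + m * u.count x) := by ring
      rw [e2, Nat.add_mul_mod_self_left]
    · intro x
      rw [List.mem_append, List.mem_append, mem_rp hn, mem_rp hn]
      exact Or.comm
  exact θ.trans b1 (θ.trans b3 b2.symm)

end Pool.Agent.MWKP.H47
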