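import Pool.Agent.MWKP.StmtsN

/-!
# Row NXN of block MWKP

In the gamma world outside beta, period `n`, modularity forces `x^2y ≈ x^2yx^n` or `xytxy ≈ yxtxy`:
pentagon with the congruences which preserve the properties `PC` and `PD` (twin of MWK row ND1).
-/

namespace Pool.Agent.MWKP.H47

open Pool.Agent.Helper14_MV Pool.Agent.Helper2_MV Pool.Agent.MWK Pool.Agent.MWKP
open Pool.Agent.MWF (gaml le_gaml gaml_keep RR_gaml pent)

theorem flat_rep (g : ℕ → List ℕ) (hg : g 0 = [0]) (n : ℕ) :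
    (List.replicate n 0).flatMap g = List.replicate n 0 := by
  induction n with
  | zero => rfl
  | succ n ih =>
    rw [List.replicate_succ, List.flatMap_cons, ih, hg]
    rfl

theorem nxn (hnmc : NmnStmt) (hnec : NenStmt) (hnmd : NdnStmt) : NxnStmt := by
  intro n β hm hg hc
  by_contra hcon
  have hntd : NtdStmt := Pool.Agent.MWK.H89.ntd
  have hn := hg.pos
  have hn1 : ¬ RR β [0, 0, 1] (0 :: 0 :: 1 :: List.replicate n 0) := fun h => hcon (Or.inl h)
  have hn2 : ¬ RR β [0, 1, 2, 0, 1] [1, 0, 2, 0, 1] := fun h => hcon (Or.inr h)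
  have kC := hnmc n β hg hc hn2
  have kD := hnmd n β hg hn1
  obtain ⟨σ, hσ⟩ : ∃ σ : FIC, σ = gaml PC := ⟨_, rfl⟩
  obtain ⟨τ, hτ⟩ : ∃ τ : FIC, τ = gaml PD := ⟨_, rfl⟩
  obtain ⟨u, hu⟩ : ∃ u : List ℕ, u = [0, 1, 2, 0, 3, 1] := ⟨_, rfl⟩
  obtain ⟨v, hv⟩ : ∃ v : List ℕ, v = [1, 0, 2, 0, 3, 1] := ⟨_, rfl⟩
  obtain ⟨P, hP⟩ : ∃ P : List ℕ → Prop, P = fun w => PD w ∧ RR σ w u := ⟨_, rfl⟩
  have hβσ : β ≤ σ := by rw [hσ]; exact le_gaml kC
  have hβτ : β ≤ τ := by rw [hτ]; exact le_gaml kD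
  have hβP : β ≤ gaml P := by
    apply le_gaml
    intro a b hab ha
    rw [hP] at ha ⊢
    exact ⟨kD a b hab ha.1, σ.trans (RR.symm (hβσ _ _ hab)) ha.2⟩
  have hβρ : β ≤ FIC.inf (gaml P) τ := FIC.le_inf hβP hβτ
  have hρτ : FIC.inf (gaml P) τ ≤ τ := FIC.inf_le_right _ _
  have ht : RR τ u v := by rw [hτ, hu, hv]; exact hntd.1
  -- relations in σ
  have e1 : RR σ [0, 0, 1] (0 :: 0 :: 1 :: List.replicate n 0) := by
    rw [hσ]
    exact (hnec n hn).1
  have e2 : RR σ [0, 1, 0] (0 :: 1 :: List.replicate (n + 1) 0) := by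
    rw [hσ]
    exact (hnec n hn).2
  have e3 : RR σ [0, 1, 0, 2] ([0, 1, 0, 2] ++ List.replicate n 0) := by
    obtain ⟨m, rfl⟩ : ∃ m, n = m + 1 := ⟨n - 1, by omega⟩
    have a1 : RR σ [0, 1, 0, 2] (0 :: 1 :: List.replicate (m + 1 + 1) 0 ++ [2]) :=
      e2.append (RR.refl [2])
    have a2 : RR σ [0, 0, 2] ([0, 0, 2] ++ List.replicate (m + 1) 0) := by
      have h := e1.sub (fun c => if c = 1 then [2] else [c])
      have e : (0 :: 0 :: 1 :: List.replicate (m + 1) 0).flatMap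
          (fun c => if c = 1 then [2] else [c]) = [0, 0, 2] ++ List.replicate (m + 1) 0 := by
        rw [List.flatMap_cons, List.flatMap_cons, List.flatMap_cons, flat_rep _ rfl]
        rfl
      rw [e] at h
      exact h
    have a3 : RR σ (0 :: 1 :: List.replicate m 0 ++ [0, 0, 2])
        (0 :: 1 :: List.replicate m 0 ++ ([0, 0, 2] ++ List.replicate (m + 1) 0)) :=
      (RR.refl _).append a2
    have a4 : RR σ (0 :: 1 :: List.replicate (m + 1 + 1) 0 ++ (2 :: List.replicate (m + 1) 0))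
        ([0, 1, 0] ++ (2 :: List.replicate (m + 1) 0)) := e2.symm.append (RR.refl _)
    have r1 : 0 :: 1 :: List.replicate m 0 ++ [0, 0, 2] =
        0 :: 1 :: List.replicate (m + 1 + 1) 0 ++ [2] := by
      rw [List.replicate_succ', List.replicate_succ']
      simp
    have r2 : 0 :: 1 :: List.replicate m 0 ++ ([0, 0, 2] ++ List.replicate (m + 1) 0) =
        0 :: 1 :: List.replicate (m + 1 + 1) 0 ++ (2 :: List.replicate (m + 1) 0) := by
      rw [← List.append_assoc, r1]
      simp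
    rw [r1, r2] at a3
    exact σ.trans a1 (σ.trans a3 a4)
  have c1 : RR σ u ([0, 1, 2, 0, 3] ++ List.replicate n 0 ++ [1]) := by
    rw [hu]
    have a1 := e3.sub (fun c => if c = 0 then [0] else if c = 1 then [1, 2] else [3])
    rw [List.flatMap_append, flat_rep _ rfl] at a1
    have a2 := a1.append (RR.refl [1])
    exact a2
  have c3 : RR σ ([1, 0, 2, 0, 3] ++ List.replicate n 0 ++ [1]) v := by
    rw [hv]
    have a1 := e3.sub (fun c => if c = 0 then [0] else if c = 1 then [2] else [3])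
    rw [List.flatMap_append, flat_rep _ rfl] at a1
    have a2 := (RR.refl [1]).append (a1.append (RR.refl [1]))
    exact a2.symm
  have c2 : RR (FIC.inf (gaml P) τ) ([0, 1, 2, 0, 3] ++ List.replicate n 0 ++ [1])
      ([1, 0, 2, 0, 3] ++ List.replicate n 0 ++ [1]) := by
    have a0 : RR (FIC.inf (gaml P) τ) [0, 1, 2, 0, 1] [1, 0, 2, 0, 1] := by
      refine ⟨?_, ?_⟩
      · refine RR_gaml (P := P) (l := [0, 1, 2, 0, 1]) (l' := [1, 0, 2, 0, 1]) ?_
        intro f p q
        constructor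
        · intro h
          have h1 : PD (p ++ [0, 1, 2, 0, 1].flatMap f ++ q) := by
            rw [hP] at h
            exact h.1
          rw [← hntd.2 f p q (Or.inl h1)]
          exact h
        · intro h
          have h1 : PD (p ++ [1, 0, 2, 0, 1].flatMap f ++ q) := by
            rw [hP] at h
            exact h.1
          rw [hntd.2 f p q (Or.inr h1)]
          exact h
      · rw [hτ]
        refine RR_gaml (P := PD) (l := [0, 1, 2, 0, 1]) (l' := [1, 0, 2, 0, 1]) ?_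
        intro f p q
        constructor
        · intro h
          rw [← hntd.2 f p q (Or.inl h)]
          exact h
        · intro h
          rw [hntd.2 f p q (Or.inr h)]
          exact h
    obtain ⟨m, rfl⟩ : ∃ m, n = m + 1 := ⟨n - 1, by omega⟩
    have a1 := a0.sub (fun c => if c = 2 then [2, 0, 3] ++ List.replicate m 0 else [c])
    have r1 : [0, 1, 2, 0, 3] ++ List.replicate (m + 1) 0 ++ [1] =
        [0, 1, 2, 0, 1].flatMap (fun c => if c = 2 then [2, 0, 3] ++ List.replicate m 0 else [c]) := by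
      rw [List.replicate_succ']
      simp
    have r2 : [1, 0, 2, 0, 3] ++ List.replicate (m + 1) 0 ++ [1] =
        [1, 0, 2, 0, 1].flatMap (fun c => if c = 2 then [2, 0, 3] ++ List.replicate m 0 else [c]) := by
      rw [List.replicate_succ']
      simp
    rw [r1, r2]
    exact a1
  have hs : RR (FIC.sup (FIC.inf (gaml P) τ) σ) u v := by
    have b1 : RR (FIC.sup (FIC.inf (gaml P) τ) σ) u
        ([0, 1, 2, 0, 3] ++ List.replicate n 0 ++ [1]) :=
      FIC.le_sup_right _ _ _ _ c1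
    have b2 : RR (FIC.sup (FIC.inf (gaml P) τ) σ) ([0, 1, 2, 0, 3] ++ List.replicate n 0 ++ [1])
        ([1, 0, 2, 0, 3] ++ List.replicate n 0 ++ [1]) :=
      FIC.le_sup_left _ _ _ _ c2
    have b3 : RR (FIC.sup (FIC.inf (gaml P) τ) σ)
        ([1, 0, 2, 0, 3] ++ List.replicate n 0 ++ [1]) v :=
      FIC.le_sup_right _ _ _ _ c3
    exact (FIC.sup (FIC.inf (gaml P) τ) σ).trans b1
      ((FIC.sup (FIC.inf (gaml P) τ) σ).trans b2 b3)
  have hPu : P u := by
    rw [hP]
    refine ⟨?_, RR.refl u⟩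
    rw [hu]
    refine ⟨?_, ⟨1, le_rfl, ?_⟩, ⟨1, le_rfl, ?_⟩⟩
    · intro c hc
      simp at hc
      omega
    · decide
    · decide
  have hPv : P v := by
    refine pent hm hβρ hβσ hβτ hρτ (P := P) ?_ ?_ hs ht hPu
    · intro a b hab ha
      exact (gaml_keep hab.1).1 ha
    · intro a b hab hab' ha
      rw [hP] at ha ⊢
      refine ⟨?_, σ.trans (RR.symm hab) ha.2⟩
      rw [hτ] at hab'
      exact (gaml_keep hab').1 ha.1
  rw [hP] at hPv
  have h1 : RR σ v u := hPv.2
  have h2 : RR σ [1, 0, 2, 0, 1] [0, 1, 2, 0, 1] := by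
    have h3 := h1.filter (fun c => decide (c ≠ 3))
    rw [hu, hv] at h3
    exact h3
  rw [hσ] at h2
  have h4 : PC [0, 1, 2, 0, 1] := by
    refine ⟨[0, 1], rfl, ?_, ?_, ?_⟩
    · intro c hc
      simpa using hc
    · simp
    · simp
  obtain ⟨m, hm1, -⟩ := (gaml_keep h2).2 h4
  simp at hm1

end Pool.Agent.MWKP.H47
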